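import Pool.Agent.H548.SC.Defs

/-!
SC-OUT: two reindexing identities of sums over finite sets of cells.
-/

set_option autoImplicit false
open Classical Finset

namespace Pool.Agent.R451.SC

open Pool.Agent.H548.SC

variable {β : Type} [Fintype β] [DecidableEq β]

/-- basic reindexing `(S, x), x ∉ S  ↔  (W, x), x ∈ W` with `W = insert x S` -/
theorem reidx (F : Finset β → β → ℝ) :
    ∑ S : Finset β, ∑ x ∈ Sᶜ, F (insert x S) x = ∑ W : Finset β, ∑ x ∈ W, F W x := by
  have h1 : ∀ S ∈ (univ : Finset (Finset β)), ∑ x ∈ Sᶜ, F (insert x S) x =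
      ∑ x : β, if x ∉ S then F (insert x S) x else 0 := by
    intro S _
    rw [← Finset.sum_filter]
    apply Finset.sum_congr
    · ext x; simp
    · intros; rfl
  have h2 : ∀ W ∈ (univ : Finset (Finset β)), ∑ x ∈ W, F W x =
      ∑ x : β, if x ∈ W then F W x else 0 := by
    intro W _
    rw [← Finset.sum_filter]
    apply Finset.sum_congr
    · ext x; simp
    · intros; rfl
  rw [Finset.sum_congr rfl h1, Finset.sum_congr rfl h2, Finset.sum_comm,
    Finset.sum_comm (s := (univ : Finset (Finset β)))]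
  apply Finset.sum_congr rfl
  intro x _
  rw [← Finset.sum_filter, ← Finset.sum_filter]
  refine Finset.sum_bij' (fun S _ => insert x S) (fun W _ => W.erase x) ?_ ?_ ?_ ?_ ?_
  · intro S hS; simp
  · intro W hW; simp
  · intro S hS
    simp only [Finset.mem_filter, Finset.mem_univ, true_and] at hS
    exact Finset.erase_insert hS
  · intro W hW
    simp only [Finset.mem_filter, Finset.mem_univ, true_and] at hW
    exact Finset.insert_erase hW
  · intro S hS; rfl

theorem split_sum (S : Finset β) (g : β → β → ℝ) (hg : ∀ x y, g x y = g y x) :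
    ∑ x, ∑ y, g x y = ∑ x ∈ S, ∑ y ∈ S, g x y + 2 * ∑ x ∈ S, ∑ y ∈ Sᶜ, g x y +
      ∑ x ∈ Sᶜ, ∑ y ∈ Sᶜ, g x y := by
  have h : ∀ x, ∑ y, g x y = ∑ y ∈ S, g x y + ∑ y ∈ Sᶜ, g x y := fun x =>
    (Finset.sum_add_sum_compl S (g x)).symm
  have h2 : ∑ x ∈ Sᶜ, ∑ y ∈ S, g x y = ∑ x ∈ S, ∑ y ∈ Sᶜ, g x y := by
    rw [Finset.sum_comm]
    apply Finset.sum_congr rfl
    intro x _
    apply Finset.sum_congr rfl
    intro y _
    exact hg y x
  rw [← Finset.sum_add_sum_compl S (fun x => ∑ y, g x y)]
  simp only [h, Finset.sum_add_distrib]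
  rw [h2]
  ring

section
variable {ι κ : Type} [Fintype ι] [Fintype κ]

theorem gen_symm {x y : ι × κ} : gen x y ↔ gen y x := by
  unfold gen
  constructor <;> rintro ⟨h1, h2⟩ <;> exact ⟨h1.symm, h2.symm⟩

theorem gen_ne {x y : ι × κ} (h : gen x y) : x ≠ y := by
  rintro rfl
  exact h.1 rfl

theorem wt_insert (t : ι × κ → ℝ) {S : Finset (ι × κ)} {x : ι × κ} (h : x ∉ S) :
    wt t (insert x S) = t x * wt t S := by
  unfold wt
  rw [Finset.prod_insert h]

theorem out1 (t : ι × κ → ℝ) : (∑ S ∈ N4 ι κ, ∑ x ∈ Sᶜ, t x * wt t S) =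
    (∑ W ∈ (univ : Finset (Finset (ι × κ))) with 5 ≤ W.card, (nu W : ℝ) * wt t W) := by
  have h := reidx (β := ι × κ) (fun W x => if 4 ≤ (W.erase x).card ∧ ¬ isRow (W.erase x) ∧
    ¬ isCol (W.erase x) then wt t W else 0)
  have h1 : (∑ S ∈ N4 ι κ, ∑ x ∈ Sᶜ, t x * wt t S) =
      ∑ S : Finset (ι × κ), ∑ x ∈ Sᶜ, (if 4 ≤ ((insert x S).erase x).card ∧
        ¬ isRow ((insert x S).erase x) ∧ ¬ isCol ((insert x S).erase x) then
          wt t (insert x S) else 0) := by
    unfold N4
    rw [Finset.sum_filter]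
    apply Finset.sum_congr rfl
    intro S _
    split_ifs with hS
    · apply Finset.sum_congr rfl
      intro x hx
      have hx' : x ∉ S := Finset.mem_compl.1 hx
      rw [Finset.erase_insert hx', if_pos hS, wt_insert t hx']
    · symm
      apply Finset.sum_eq_zero
      intro x hx
      have hx' : x ∉ S := Finset.mem_compl.1 hx
      rw [Finset.erase_insert hx', if_neg hS]
  rw [h1, h, Finset.sum_filter]
  apply Finset.sum_congr rfl
  intro W _
  split_ifs with hW
  · unfold nu
    rw [← Finset.sum_filter, Finset.sum_const, nsmul_eq_mul]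
    congr 2
    congr 1
    apply Finset.filter_congr
    intro x hx
    rw [Finset.card_erase_of_mem hx]
    constructor
    · rintro ⟨_, h2⟩; exact h2
    · intro h2; exact ⟨by omega, h2⟩
  · apply Finset.sum_eq_zero
    intro x hx
    rw [if_neg]
    rintro ⟨h2, _⟩
    rw [Finset.card_erase_of_mem hx] at h2
    omega

theorem outout (t : ι × κ → ℝ) :
    (∑ S ∈ (univ : Finset (Finset (ι × κ))) with 3 ≤ S.card,
      ∑ x ∈ Sᶜ, ∑ y ∈ Sᶜ, if gen x y then t x * t y * wt t S else 0) =
    (∑ W ∈ (univ : Finset (Finset (ι × κ))) with 5 ≤ W.card, (G2 W : ℝ) * wt t W) := by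
  -- step 1: absorb `x`
  have s1 : (∑ S ∈ (univ : Finset (Finset (ι × κ))) with 3 ≤ S.card,
      ∑ x ∈ Sᶜ, ∑ y ∈ Sᶜ, if gen x y then t x * t y * wt t S else 0) =
      ∑ S : Finset (ι × κ), ∑ x ∈ Sᶜ, ∑ y ∈ (insert x S)ᶜ,
        if gen x y ∧ 3 ≤ ((insert x S).erase x).card then t y * wt t (insert x S) else 0 := by
    rw [Finset.sum_filter]
    apply Finset.sum_congr rfl
    intro S _
    split_ifs with hS
    · apply Finset.sum_congr rfl
      intro x hx
      have hx' : x ∉ S := Finset.mem_compl.1 hx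
      rw [Finset.erase_insert hx', wt_insert t hx', Finset.compl_insert,
        ← Finset.add_sum_erase _ _ hx, if_neg (fun h => gen_ne h rfl), zero_add]
      apply Finset.sum_congr rfl
      intro y _
      by_cases hg : gen x y
      · rw [if_pos hg, if_pos ⟨hg, hS⟩]; ring
      · rw [if_neg hg, if_neg (fun h => hg h.1)]
    · symm
      apply Finset.sum_eq_zero
      intro x hx
      have hx' : x ∉ S := Finset.mem_compl.1 hx
      rw [Finset.erase_insert hx']
      apply Finset.sum_eq_zero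
      intro y _
      rw [if_neg (fun h => hS h.2)]
  have s2 := reidx (β := ι × κ) (fun U x => ∑ y ∈ Uᶜ,
        if gen x y ∧ 3 ≤ (U.erase x).card then t y * wt t U else 0)
  have s3 : ∑ U : Finset (ι × κ), ∑ x ∈ U, ∑ y ∈ Uᶜ,
        (if gen x y ∧ 3 ≤ (U.erase x).card then t y * wt t U else 0) =
      ∑ U : Finset (ι × κ), ∑ y ∈ Uᶜ, ∑ x ∈ (insert y U).erase y,
        (if gen x y ∧ 3 ≤ (((insert y U).erase y).erase x).card then wt t (insert y U) else 0) := by
    apply Finset.sum_congr rfl
    intro U _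
    rw [Finset.sum_comm]
    apply Finset.sum_congr rfl
    intro y hy
    have hy' : y ∉ U := Finset.mem_compl.1 hy
    rw [Finset.erase_insert hy', wt_insert t hy']
  have s4 := reidx (β := ι × κ) (fun W y => ∑ x ∈ W.erase y,
        (if gen x y ∧ 3 ≤ ((W.erase y).erase x).card then wt t W else 0))
  rw [s1, s2, s3, s4, Finset.sum_filter]
  apply Finset.sum_congr rfl
  intro W _
  have h5 : ∀ y ∈ W, ∑ x ∈ W.erase y,
      (if gen x y ∧ 3 ≤ ((W.erase y).erase x).card then wt t W else 0) =
      if 5 ≤ W.card then ∑ x ∈ W, (if gen x y then wt t W else 0) else 0 := by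
    intro y hy
    have hcard : ∀ x ∈ W.erase y, ((W.erase y).erase x).card = W.card - 1 - 1 := by
      intro x hx
      rw [Finset.card_erase_of_mem hx, Finset.card_erase_of_mem hy]
    split_ifs with h5
    · rw [← Finset.add_sum_erase W _ hy, if_neg (fun h => gen_ne h rfl), zero_add]
      apply Finset.sum_congr rfl
      intro x hx
      rw [hcard x hx]
      by_cases hg : gen x y
      · rw [if_pos hg, if_pos ⟨hg, by omega⟩]
      · rw [if_neg hg, if_neg (fun h => hg h.1)]
    · apply Finset.sum_eq_zero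
      intro x hx
      rw [hcard x hx, if_neg]
      rintro ⟨_, h⟩
      omega
  rw [Finset.sum_congr rfl h5]
  split_ifs with h5
  · unfold G2
    rw [Finset.sum_comm, ← Finset.sum_product', ← Finset.sum_filter, Finset.sum_const,
      nsmul_eq_mul]
  · simp

end

/-- **SC-OUT** -/
theorem stmtOut : StmtOut := by
  intro ι κ _ _ t
  refine ⟨out1 t, ?_⟩
  rw [← outout t]
  unfold K
  have h : ∀ S : Finset (ι × κ), (1 / 2) * (∑ x : ι × κ, ∑ y : ι × κ,
      if gen x y then t x * t y else 0) * wt t S =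
      (1 / 2) * (∑ x ∈ Sᶜ, ∑ y ∈ Sᶜ, if gen x y then t x * t y * wt t S else 0) +
      (∑ x ∈ S, ∑ y ∈ Sᶜ, if gen x y then t x * t y * wt t S else 0) +
      (1 / 2) * ∑ x ∈ S, ∑ y ∈ S, if gen x y then t x * t y * wt t S else 0 := by
    intro S
    have e := split_sum S (fun x y : ι × κ => if gen x y then t x * t y * wt t S else 0) (by
      intro x y
      by_cases hg : gen x y
      · rw [if_pos hg, if_pos (gen_symm.1 hg)]; ring
      · rw [if_neg hg, if_neg (fun h => hg (gen_symm.1 h))])
    have e2 : (∑ x : ι × κ, ∑ y : ι × κ, if gen x y then t x * t y else 0) * wt t S =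
        ∑ x : ι × κ, ∑ y : ι × κ, if gen x y then t x * t y * wt t S else 0 := by
      rw [Finset.sum_mul]
      apply Finset.sum_congr rfl
      intro x _
      rw [Finset.sum_mul]
      apply Finset.sum_congr rfl
      intro y _
      split_ifs <;> ring
    rw [mul_assoc, e2, e]
    ring
  rw [Finset.mul_sum, Finset.sum_congr rfl (fun S _ => h S), Finset.sum_add_distrib,
    Finset.sum_add_distrib, ← Finset.mul_sum, ← Finset.mul_sum]

end Pool.Agent.R451.SC
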