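import Pool.Agent.H548.SC.Defs

/-!
SC-PUSH: push-forward of subset sums to the grid.
-/

set_option autoImplicit false
open Classical Finset

namespace Pool.Agent.R451.SC

open Pool.Agent.H548.SC

variable {α ι κ : Type} [Fintype ι] [Fintype κ]

/-- subset sum with prescribed image -/
noncomputable def ff (t : α → ℝ) (O : Finset α) (row : α → ι) (col : α → κ)
    (W : Finset (ι × κ)) : ℝ :=
  ∑ S ∈ O.powerset, if S.image (fun a => (row a, col a)) = W then ∏ a ∈ S, t a else 0

theorem ff_eq (t : α → ℝ) (row : α → ι) (col : α → κ) (O : Finset α) :
    ∀ W : Finset (ι × κ), ff t O row col W = wt (cellWt t O row col) W := by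
  induction O using Finset.induction_on with
  | empty =>
    intro W
    unfold ff wt cellWt
    rw [Finset.powerset_empty, Finset.sum_singleton, Finset.image_empty, Finset.prod_empty]
    by_cases hW : W = ∅
    · subst hW; simp
    · rw [if_neg (fun h => hW h.symm)]
      obtain ⟨x, hx⟩ := Finset.nonempty_iff_ne_empty.2 hW
      symm
      apply Finset.prod_eq_zero hx
      simp
  | insert a O ha ih =>
    intro W
    have hc : ∀ x, x ≠ (row a, col a) →
        cellWt t (insert a O) row col x = cellWt t O row col x := by
      intro x hx
      unfold cellWt
      rw [Finset.filter_insert, if_neg (fun h => hx h.symm)]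
    have hc0 : cellWt t (insert a O) row col (row a, col a) =
        (1 + t a) * (1 + cellWt t O row col (row a, col a)) - 1 := by
      unfold cellWt
      rw [Finset.filter_insert, if_pos rfl, Finset.prod_insert (by simp [ha])]
      ring
    have h2 : ∀ S ∈ O.powerset,
        (if (insert a S).image (fun a => (row a, col a)) = W then ∏ b ∈ insert a S, t b else 0) =
        if (row a, col a) ∈ W then
          t a * ((if S.image (fun a => (row a, col a)) = W then ∏ b ∈ S, t b else 0) +
            (if S.image (fun a => (row a, col a)) = W.erase (row a, col a) then ∏ b ∈ S, t b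
              else 0)) else 0 := by
      intro S hS
      have haS : a ∉ S := fun h => ha (Finset.mem_powerset.1 hS h)
      rw [Finset.image_insert, Finset.prod_insert haS]
      set x0 : ι × κ := (row a, col a) with hx0
      set J := S.image (fun a => (row a, col a)) with hJ
      by_cases hW : x0 ∈ W
      · rw [if_pos hW]
        by_cases h1 : x0 ∈ J
        · have e1 : insert x0 J = J := Finset.insert_eq_of_mem h1
          rw [e1]
          have e2 : ¬ (J = W.erase x0) := by
            intro h; rw [h] at h1; exact (Finset.notMem_erase _ _) h1
          rw [if_neg e2]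
          split_ifs <;> ring
        · have e2 : ¬ (J = W) := by
            intro h; rw [h] at h1; exact h1 hW
          rw [if_neg e2]
          have e3 : (insert x0 J = W) ↔ (J = W.erase x0) := by
            constructor
            · intro h; rw [← h, Finset.erase_insert h1]
            · intro h; rw [h, Finset.insert_erase hW]
          by_cases h3 : J = W.erase x0
          · rw [if_pos h3, if_pos (e3.2 h3)]; ring
          · rw [if_neg h3, if_neg (fun h => h3 (e3.1 h))]; ring
      · rw [if_neg hW, if_neg]
        intro h; apply hW; rw [← h]; exact Finset.mem_insert_self _ _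
    unfold ff
    rw [Finset.sum_powerset_insert ha, Finset.sum_congr rfl h2]
    have ih1 := ih W
    have ih2 := ih (W.erase (row a, col a))
    unfold ff at ih1 ih2
    by_cases hW : (row a, col a) ∈ W
    · simp only [if_pos hW]
      rw [← Finset.mul_sum, Finset.sum_add_distrib, ih1, ih2]
      unfold wt
      rw [← Finset.mul_prod_erase W _ hW, ← Finset.mul_prod_erase W (cellWt t (insert a O) row col) hW,
        hc0]
      have h4 : ∏ x ∈ W.erase (row a, col a), cellWt t (insert a O) row col x =
          ∏ x ∈ W.erase (row a, col a), cellWt t O row col x := by
        apply Finset.prod_congr rfl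
        intro x hx
        exact hc x (Finset.ne_of_mem_erase hx)
      rw [h4]
      ring
    · simp only [if_neg hW, Finset.sum_const_zero, add_zero]
      rw [ih1]
      unfold wt
      apply Finset.prod_congr rfl
      intro x hx
      rw [hc x (fun h => hW (h ▸ hx))]

/-- **SC-PUSH** -/
theorem stmtPush : StmtPush := by
  intro α ι κ _ _ t O row col Q
  rw [Finset.sum_filter, Finset.sum_filter]
  have h : ∀ W ∈ (univ : Finset (Finset (ι × κ))), (if Q W then wt (cellWt t O row col) W else 0) =
      ∑ S ∈ O.powerset, if S.image (fun a => (row a, col a)) = W then
        (if Q W then ∏ a ∈ S, t a else 0) else 0 := by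
    intro W _
    by_cases hQ : Q W
    · simp only [if_pos hQ]
      exact (ff_eq t row col O W).symm
    · simp only [if_neg hQ]
      simp
  rw [Finset.sum_congr rfl h, Finset.sum_comm]
  apply Finset.sum_congr rfl
  intro S _
  rw [Finset.sum_ite_eq, if_pos (Finset.mem_univ _)]

end Pool.Agent.R451.SC
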